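import Mathlib
import Pool.Agent.Helper47.LexNec

open Finset MvPolynomial RingTheory.Sequence
open Pool.Agent.Helper47.Kos Pool.Agent.Helper47.LexSeg

namespace Pool.Agent.Results.MP_805877_ag.DepthCriterion

variable {n : ℕ} {k : Type*} [Field k]

lemma isRegular_of_weakly (L : Set (Finset (Fin n))) (hL : ∀ w ∈ L, w.Nonempty)
    (rs : List (MvPolynomial (Fin n) k))
    (hmem : ∀ r ∈ rs, r ∈ Ideal.span (Set.range (X : Fin n → MvPolynomial (Fin n) k)))
    (h : IsWeaklyRegular (MvPolynomial (Fin n) k ⧸ sqI k L) rs) :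
    IsRegular (MvPolynomial (Fin n) k ⧸ sqI k L) rs := by
  refine ⟨h, ?_⟩
  intro htop
  -- evaluation at the origin kills the ideal and every entry of `rs`
  let ev0 : MvPolynomial (Fin n) k →+* k := (constantCoeff : MvPolynomial (Fin n) k →+* k)
  let m : Ideal (MvPolynomial (Fin n) k) := RingHom.ker ev0
  have hspan : Ideal.span (Set.range (X : Fin n → MvPolynomial (Fin n) k)) ≤ m := by
    rw [Ideal.span_le]
    rintro _ ⟨i, rfl⟩
    change constantCoeff (X i : MvPolynomial (Fin n) k) = 0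
    simp
  have hI : sqI k L ≤ m := by
    unfold sqI
    rw [Ideal.span_le]
    rintro _ ⟨w, hw, rfl⟩
    obtain ⟨i, hi⟩ := hL w hw
    exact m.mem_of_dvd (Finset.dvd_prod_of_mem _ hi) (hspan (Ideal.subset_span ⟨i, rfl⟩))
  have hof : Ideal.ofList rs ≤ m := by
    unfold Ideal.ofList
    rw [Ideal.span_le]
    intro r hr
    exact hspan (hmem r hr)
  have h1 : (Submodule.Quotient.mk 1 : MvPolynomial (Fin n) k ⧸ sqI k L) ∈
      (Ideal.ofList rs • (⊤ : Submodule (MvPolynomial (Fin n) k)
        (MvPolynomial (Fin n) k ⧸ sqI k L))) := by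
    rw [← htop]; trivial
  -- every element of `ofList rs • ⊤` lifts to `m`
  have h2 : ∀ y ∈ (Ideal.ofList rs • (⊤ : Submodule (MvPolynomial (Fin n) k)
        (MvPolynomial (Fin n) k ⧸ sqI k L))), ∃ f ∈ m, Submodule.Quotient.mk f = y := by
    intro y hy
    induction hy using Submodule.smul_induction_on' with
    | smul r hr z _ =>
      obtain ⟨g, rfl⟩ := Submodule.Quotient.mk_surjective _ z
      exact ⟨r * g, m.mul_mem_right _ (hof hr), rfl⟩
    | add y1 _ y2 _ h1 h2 =>
      obtain ⟨f1, hf1, rfl⟩ := h1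
      obtain ⟨f2, hf2, rfl⟩ := h2
      exact ⟨f1 + f2, m.add_mem hf1 hf2, rfl⟩
  obtain ⟨f, hf, hfe⟩ := h2 _ h1
  have h3 : f - 1 ∈ sqI k L := (Submodule.Quotient.eq _).mp hfe
  have h4 : (1 : MvPolynomial (Fin n) k) ∈ m := by
    have : (1 : MvPolynomial (Fin n) k) = f - (f - 1) := by ring
    rw [this]
    exact m.sub_mem hf (hI h3)
  have h5 : constantCoeff (1 : MvPolynomial (Fin n) k) = 0 := h4
  rw [map_one] at h5
  exact one_ne_zero h5

/-- **Theorem.** For squarefree lexsegment ideals `I = (L(u, v))` of degree `q ≥ 2` with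
`x_1 ∣ u` and `x_1 ∤ v`, one has `depth (S / I) = q - 1` if and only if `w_0 ≥_lex v`. -/
theorem result (k : Type*) [Field k] (n q : ℕ) (_hn : 2 ≤ n) (hq : 2 ≤ q)
    (u v : Finset (Fin n)) (hu : u.card = q) (hv : v.card = q)
    (hu1 : ∃ i ∈ u, i.val = 0) (hv1 : ∀ i ∈ v, i.val ≠ 0) :
    depth (Ideal.span (Set.range (X : Fin n → MvPolynomial (Fin n) k)))
      (MvPolynomial (Fin n) k ⧸ lexsegmentIdeal k q u v) = ((q - 1 : ℕ) : ℕ∞) ↔
    LexGE (w0 u) v := by
  classical
  obtain ⟨a, ha, ha0⟩ := hu1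
  obtain ⟨q', rfl⟩ : ∃ q', q = q' + 1 := ⟨q - 1, by omega⟩
  let L : Set (Finset (Fin n)) := {w | w.card = q' + 1 ∧ LexGE u w ∧ LexGE w v}
  have hI : lexsegmentIdeal k (q' + 1) u v = sqI k L := rfl
  rw [hI, Nat.add_sub_cancel]
  have hLc : ∀ w ∈ L, w.card = q' + 1 := fun w hw => hw.1
  have hLne : ∀ w ∈ L, w.Nonempty := fun w hw => card_pos.mp (by rw [hLc w hw]; omega)
  have hqn : q' + 1 ≤ n := by
    have := card_le_univ u
    rw [hu, Fintype.card_fin] at this
    exact this
  have hamin : ∀ i : Fin n, a ≤ i := fun i => Fin.le_def.mpr (by omega)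
  have hav : ∀ i ∈ v, i ≠ a := fun i hi e => hv1 i hi (by rw [e]; exact ha0)
  -- a regular sequence of length `q - 1`
  obtain ⟨rs, hlen, hmem, hreg⟩ := exists_regular_of_exactAt
    (X : Fin n → MvPolynomial (Fin n) k) q' (MvPolynomial (Fin n) k ⧸ sqI k L)
    (fun i hi => exactAt_quot L (q' + 1) i hLc (by omega) (by omega) (fun h => by omega))
  have hlow : ((q' : ℕ) : ℕ∞) ≤ depth (Ideal.span (Set.range
      (X : Fin n → MvPolynomial (Fin n) k))) (MvPolynomial (Fin n) k ⧸ sqI k L) := by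
    unfold depth
    refine le_trans ?_ (le_iSup _ ⟨rs, hmem, isRegular_of_weakly L hLne rs hmem hreg⟩)
    simp [hlen]
  constructor
  · intro hdepth
    by_contra hnot
    -- no cocycle is supported on `L`
    have hno : NoCocycle k L := by
      intro ψ hψL hψd
      by_contra hψ0
      apply hnot
      rw [← w0r_zero, ← ha0]
      apply w0_ge_of_cocycle q' a u v hu ha (fun i _ => hamin i) hv (fun i _ => hamin i) ψ
      · by_contra hall
        push Not at hall
        exact hψ0 (funext hall)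
      · intro w hw
        obtain ⟨h1, h2, h3⟩ := hψL w hw
        exact ⟨h1, fun i _ => hamin i, h2, h3⟩
      · intro F _
        exact hψd F
    obtain ⟨rs', hlen', hmem', hreg'⟩ := exists_regular_of_exactAt
      (X : Fin n → MvPolynomial (Fin n) k) (q' + 1) (MvPolynomial (Fin n) k ⧸ sqI k L)
      (fun i hi => exactAt_quot L (q' + 1) i hLc (by omega) (by omega) (fun _ => hno))
    have hbig : ((q' + 1 : ℕ) : ℕ∞) ≤ depth (Ideal.span (Set.range
        (X : Fin n → MvPolynomial (Fin n) k))) (MvPolynomial (Fin n) k ⧸ sqI k L) := by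
      unfold depth
      refine le_trans ?_ (le_iSup _ ⟨rs', hmem', isRegular_of_weakly L hLne rs' hmem' hreg'⟩)
      simp [hlen']
    rw [hdepth] at hbig
    have : q' + 1 ≤ q' := by exact_mod_cast hbig
    omega
  · intro hge
    apply le_antisymm _ hlow
    -- the block cocycle bounds the length of every regular sequence
    obtain ⟨ψ, ⟨w1, hw1⟩, hψ, hψd⟩ := exists_cocycle (k := k) q' a u hu ha (fun i _ => hamin i)
    unfold depth
    apply iSup_le
    rintro ⟨rs', hmem', hreg'⟩
    by_contra hc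
    rw [not_le] at hc
    have hlt : q' < rs'.length := by exact_mod_cast hc
    have hex := exactAt_of_regular (X : Fin n → MvPolynomial (Fin n) k) q'
      (MvPolynomial (Fin n) k ⧸ sqI k L) rs' hmem' hreg'.toIsWeaklyRegular hlt
    have hnex := not_exactAt_quot L (q' + 1) (by omega) hLc ψ (by
      intro w hw
      obtain ⟨h1, _, h3, h4⟩ := hψ w hw
      refine ⟨h1, h3, h4.trans ?_⟩
      rw [ha0, w0r_zero]
      exact hge) (fun F => hψd F (fun i _ => hamin i)) (by
      intro h0
      apply hw1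
      rw [h0]
      rfl)
    exact hnex hex

end Pool.Agent.Results.MP_805877_ag.DepthCriterion
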